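import Pool.Agent.W744.BU.Stm

set_option autoImplicit false

namespace Pool.Agent.W715.BU.DU

open Pool.Agent.W744.BU

theorem main (hent : S_ENT) (htens : S_TENS) (hdop : S_DOP) (hlam : S_LAM) : S_DU := by
  classical
  intro G _ R g
  obtain ⟨hext, -, -, -, -⟩ := hent
  obtain ⟨hT, -⟩ := htens
  obtain ⟨hD, -⟩ := hdop G (R.I × G) Prod.snd
  obtain ⟨hL, -⟩ := hlam G
  apply hext
  rintro ⟨⟨i, h⟩, k⟩ ⟨⟨i', h'⟩, k'⟩
  rw [hD]
  have h1 := (hT (R.I × G) G (UU R g) (lam g)).1 (i, h) k (i', h') k'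
  have h2 := (hT R.I G (R.X g) (lam g)).1 i h i' h'
  have h2' : entry (UU R g) (i, h) (i', h') = entry (R.X g) i i' * entry (lam g) h h' := h2
  rw [h1, h2', hL, hL]
  by_cases hh : h = g * h'
  · subst hh
    have hiff : ((g * h')⁻¹ * k = h'⁻¹ * k') ↔ k = g * k' := by
      constructor
      · intro e
        have := congrArg (fun z => g * h' * z) e
        simpa [mul_assoc] using this
      · rintro rfl
        simp [mul_assoc]
    simp only [hiff]
    by_cases hk : k = g * k'
    · simp [hk]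
    · simp [hk]
  · simp [hh]

end Pool.Agent.W715.BU.DU
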